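import Pool.Agent.helper80.VQ.SpecFL

/-!
# Project VQ (MP_07c750_an), block FL, row HFG: boxes are mapped into boxes
-/

set_option autoImplicit false

open scoped MatrixGroups ContDiff Topology UpperHalfPlane ComplexConjugate ENNReal
open UpperHalfPlane MeasureTheory Filter Set

namespace Pool.Agent.VQ

open Pool.Agent.RS
open Pool.Agent.VQE (nm)

noncomputable section

theorem HFG_nm (x : SL(2, ℝ)) (s : ℝ) :
    nm x < s ↔ ∀ i j, |x.1 i j - (1 : Matrix (Fin 2) (Fin 2) ℝ) i j| < s := by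
  unfold nm
  rw [max_lt_iff, max_lt_iff, max_lt_iff]
  constructor
  · rintro ⟨⟨h1, h2⟩, h3, h4⟩ i j
    fin_cases i <;> fin_cases j
    · simpa using h1
    · simpa using h2
    · simpa using h3
    · simpa using h4
  · intro h
    refine ⟨⟨?_, ?_⟩, ?_, ?_⟩
    · simpa using h 0 0
    · simpa using h 0 1
    · simpa using h 1 0
    · simpa using h 1 1

theorem HFG_proof (hGRW : GRW_stmt) (hFLA : FLA_stmt) (hPGV : PGV_stmt) : HFG_stmt := by
  obtain ⟨C, hC, hG⟩ := hGRW (1 / 8) (11 / 10) (by norm_num)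
  refine ⟨C + 2, by linarith, ?_⟩
  intro Γ δ B D hD0 hδ t s p q hp hq hs _ hN
  have hD : OKG Γ (1 / 8) (Bx B) D := hPGV.2.1 Γ δ B D hD0 hδ
  have hB : Bx B 0 ≤ 11 / 10 ∧ Bx B 1 ≤ 11 / 10 ∧ Bx B 2 ≤ 11 / 10 := by
    refine ⟨?_, ?_, ?_⟩ <;> simp [Bx]
  obtain ⟨hb, hE⟩ := hN
  have hE' : |q.2 - p.2| < s := by rwa [abs_sub_comm]
  have he : 1 ≤ Real.exp ((C + 2) * |t|) := Real.one_le_exp (by positivity)
  have hmono : Real.exp (C * |t|) ≤ Real.exp ((C + 2) * |t|) := by
    refine Real.exp_le_exp.2 (mul_le_mul_of_nonneg_right (by linarith) (abs_nonneg t))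
  have hbig : 2 * s * Real.exp (C * |t|) ≤ (C + 2) * Real.exp ((C + 2) * |t|) * s := by
    calc 2 * s * Real.exp (C * |t|) ≤ (C + 2) * s * Real.exp ((C + 2) * |t|) := by
          refine mul_le_mul ?_ hmono (Real.exp_pos _).le (by positivity)
          exact mul_le_mul_of_nonneg_right (by linarith) hs.le
      _ = _ := by ring
  have key : ∀ g' : SL(2, ℝ), nm (p.1⁻¹ * g') < s →
      nm ((D.fl p.2 t p.1)⁻¹ * D.fl q.2 t g') < (C + 2) * Real.exp ((C + 2) * |t|) * s := by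
    intro g' hg'
    refine (hG Γ (Bx B) D hB.1 hB.2.1 hB.2.2 hD p.2 q.2 t p.1 g' hp hq).trans_lt (lt_of_lt_of_le ?_ hbig)
    exact mul_lt_mul_of_pos_right (by linarith) (Real.exp_pos _)
  refine ⟨?_, ?_⟩
  · show (D.fl p.2 t p.1)⁻¹ * D.fl q.2 t q.1 ∈ Bo _
    rcases hb with hb | hb
    · exact Or.inl ((HFG_nm _ _).1 (key q.1 ((HFG_nm _ _).2 hb)))
    · refine Or.inr ?_
      have h1 : nm (p.1⁻¹ * (-q.1)) < s := by
        rw [HFG_nm]
        intro i j
        rw [mul_neg, Matrix.SpecialLinearGroup.coe_neg, Matrix.neg_apply]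
        have h2 := hb i j
        rwa [← abs_neg, neg_add, ← sub_eq_add_neg] at h2
      have h3 := (HFG_nm _ _).1 (key (-q.1) h1)
      intro i j
      have h4 := h3 i j
      rw [(hFLA Γ (1 / 8) (Bx B) D hD q.2 hq).2.2.1 t q.1, mul_neg, Matrix.SpecialLinearGroup.coe_neg,
        Matrix.neg_apply, ← abs_neg, neg_sub, sub_neg_eq_add, add_comm] at h4
      exact h4
  · show |p.2 - q.2| < _
    refine hE.trans_le ?_
    calc s = 1 * 1 * s := by ring
      _ ≤ (C + 2) * Real.exp ((C + 2) * |t|) * s := by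
          refine mul_le_mul_of_nonneg_right ?_ hs.le
          exact mul_le_mul (by linarith) he zero_le_one (by linarith)

end

end Pool.Agent.VQ
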