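import Pool.Agent.helper74.VQ.SpecC
import Pool.Agent.helper58.RS.FL4
import Pool.Agent.helper62.QU.All

/-!
# Project VQ (MP_07c750_an), block 2b, row VGR: Green's formula in both settings
-/

set_option autoImplicit false

open scoped MatrixGroups ContDiff Topology UpperHalfPlane ComplexConjugate ENNReal
open UpperHalfPlane MeasureTheory Filter Set

namespace Pool.Agent.VQ

open Pool.Agent.RS

noncomputable section

theorem VGR_lapc (φ : ℍ → ℂ) (h : QU.CD 2 φ) : Continuous (QU.lap φ) := by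
  obtain ⟨hcont, hmono, -, -, hder, -⟩ := QU.A_CA1 ℂ
  have hd := hder φ 1 (by exact_mod_cast h)
  have hX : QU.CD 1 (QU.dX φ) := by exact_mod_cast hd.1
  have hY : QU.CD 1 (QU.dY φ) := by exact_mod_cast hd.2
  have hX' := hder (QU.dX φ) 0 (by simpa using hX)
  have hY' := hder (QU.dY φ) 0 (by simpa using hY)
  have cX : Continuous (QU.dX (QU.dX φ)) := (hcont _).1 (by simpa using hX'.1)
  have cY : Continuous (QU.dY (QU.dY φ)) := (hcont _).1 (by simpa using hY'.2)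
  have c1 : Continuous (QU.dY φ) := (hcont _).1 (hmono _ 0 1 zero_le_one hY)
  have e : QU.lap φ = fun z => -QU.dX (QU.dX φ) z - QU.dY (QU.dY φ) z + QU.dY φ z :=
    funext fun z => (QU.A_CA2 ℂ φ h z).2
  rw [e]
  exact (cX.neg.sub cY).add c1

/-- symmetry of the convolution -/
theorem VGR_sym (Γ : Subgroup SL(2, ℝ)) (F : Set ℍ) (κ : ℝ → ℝ) (f g : ℍ → ℂ)
    (hΓ : QU.SurfaceGroup Γ) (hF : QU.NiceDom Γ F) (hκ : QU.RK κ) (hf : InvC Γ f) (hg : InvC Γ g) :
    ∫ z in F, conj (QU.conv κ f z) * g z = ∫ z in F, conj (f z) * QU.conv κ g z := by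
  obtain ⟨_, _, tsym, tinv, tcont, tdist, _, _⟩ := QU.A_TTT
  have hκc : Continuous κ := hκ.smooth.continuous
  obtain ⟨s, hs⟩ := hκ.supp
  have key := QU.A_SYM Γ F ℂ (fun z w => κ (QU.tt z w) • (conj (f w) * g z)) hΓ hF
    (by
      have e : (Function.uncurry fun z w : ℍ => κ (QU.tt z w) • (conj (f w) * g z)) =
          fun p : ℍ × ℍ => κ (QU.tt p.1 p.2) • (conj (f p.2) * g p.1) := by
        funext p
        rfl
      rw [e]
      exact (hκc.comp tcont).smul (((Complex.continuous_conj.comp hf.1).comp continuous_snd).mul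
        (hg.1.comp continuous_fst)))
    (by
      intro γ z w
      have e1 : QU.tt (γ • z) (γ • w) = QU.tt z w := tinv (γ : SL(2, ℝ)) z w
      show κ (QU.tt (γ • z) (γ • w)) • (conj (f (γ • w)) * g (γ • z)) = κ (QU.tt z w) • (conj (f w) * g z)
      rw [e1, hf.2, hg.2])
    (by
      obtain ⟨R, _, hR⟩ := tdist s
      refine ⟨R, fun z w hne => hR z w ?_⟩
      by_contra hcon
      push Not at hcon
      apply hne
      show κ (QU.tt z w) • (conj (f w) * g z) = 0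
      rw [hs _ hcon.le, zero_smul])
  have hL : (∫ z in F, conj (QU.conv κ f z) * g z) =
      ∫ z in F, ∫ w : ℍ, κ (QU.tt z w) • (conj (f w) * g z) := by
    congr 1
    funext z
    have e0 : conj (QU.conv κ f z) = ∫ w : ℍ, κ (QU.tt z w) • conj (f w) := by
      unfold QU.conv
      rw [← integral_conj]
      congr 1
      funext w
      rw [Complex.real_smul, map_mul, Complex.conj_ofReal, Complex.real_smul]
    rw [e0, ← integral_mul_const]
    congr 1
    funext w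
    rw [smul_mul_assoc]
  have hR : (∫ z in F, conj (f z) * QU.conv κ g z) =
      ∫ z in F, ∫ w : ℍ, κ (QU.tt w z) • (conj (f z) * g w) := by
    congr 1
    funext z
    unfold QU.conv
    rw [← integral_const_mul]
    congr 1
    funext w
    rw [tsym w z, mul_smul_comm]
  rw [hL, hR]
  exact key

/-- the limit of the regularised integrals -/
theorem VGR_lim (fam : ℝ → ℝ → ℝ) (hfam : QU.Fam fam) (Γ : Subgroup SL(2, ℝ)) (F : Set ℍ)
    (hΓ : QU.SurfaceGroup Γ) (hF : QU.NiceDom Γ F) (f g : ℍ → ℂ) (hf : Continuous f) (hg : Continuous g) :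
    Tendsto (fun n : ℕ => ∫ z in F, QU.conv (fam (1 / ((n : ℝ) + 1))) f z * g z) atTop
      (𝓝 (∫ z in F, f z * g z)) := by
  obtain ⟨K, hK, hFK⟩ := hF.rel
  obtain ⟨-, -, -, hvt, -, -⟩ := QU.A_DOB Γ F hΓ hF
  have hi : ∀ u : ℍ → ℂ, Continuous u → IntegrableOn u F := fun u hu =>
    (hu.continuousOn.integrableOn_compact hK).mono_set hFK
  obtain ⟨C, hC⟩ := hK.exists_bound_of_continuousOn hg.continuousOn
  have hC0 : 0 ≤ |C| := abs_nonneg C
  have hC' : ∀ z ∈ F, ‖g z‖ ≤ |C| := fun z hz => (hC z (hFK hz)).trans (le_abs_self C)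
  set V : ℝ := (volume F).toReal with hV
  have hV0 : 0 ≤ V := ENNReal.toReal_nonneg
  have hη : ∀ n : ℕ, (0 : ℝ) < 1 / ((n : ℝ) + 1) := fun n => by positivity
  rw [Metric.tendsto_atTop]
  intro ε hε
  set ε' : ℝ := ε / (2 * (|C| * V + 1)) with hε'
  have hpos : 0 < |C| * V + 1 := by positivity
  have hε'0 : 0 < ε' := by positivity
  obtain ⟨η₀, hη₀, h⟩ := (QU.A_APX fam hfam).1 ℂ f hf K hK ε' hε'0
  obtain ⟨N, hN⟩ := exists_nat_one_div_lt hη₀
  refine ⟨N, fun n hn => ?_⟩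
  have h1 : 1 / ((n : ℝ) + 1) ≤ 1 / ((N : ℝ) + 1) := by
    apply one_div_le_one_div_of_le (by positivity)
    have : (N : ℝ) ≤ n := by exact_mod_cast hn
    linarith
  have h2 := h (1 / ((n : ℝ) + 1)) (hη n) (h1.trans hN.le)
  have hcc : Continuous (QU.conv (fam (1 / ((n : ℝ) + 1))) f) :=
    (QU.A_CVB ℂ).2.2.2.2.2.1 _ f (hfam.rk _ (hη n)) hf
  have j1 : IntegrableOn (fun z => QU.conv (fam (1 / ((n : ℝ) + 1))) f z * g z) F :=
    hi _ (hcc.mul hg)
  have j2 : IntegrableOn (fun z => f z * g z) F := hi _ (hf.mul hg)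
  rw [dist_eq_norm, ← integral_sub j1 j2]
  have h3 : ‖∫ z in F, (QU.conv (fam (1 / ((n : ℝ) + 1))) f z * g z - f z * g z)‖ ≤
      (ε' * |C|) * (volume : Measure ℍ).real F := by
    refine norm_setIntegral_le_of_norm_le_const hvt fun z hz => ?_
    rw [← sub_mul, norm_mul]
    exact mul_le_mul (h2 z (hFK hz)) (hC' z hz) (norm_nonneg _) hε'0.le
  refine h3.trans_lt ?_
  rw [measureReal_def, ← hV]
  have h4 : ε' * (2 * (|C| * V + 1)) = ε := by
    rw [hε']
    field_simp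
  nlinarith

/-- the closed surface -/
theorem VGR_closed (Γ : Subgroup SL(2, ℝ)) (F : Set ℍ) (φ ψ : ℍ → ℂ)
    (hΓ : QU.SurfaceGroup Γ) (hF : QU.NiceDom Γ F) (hφ : InvC Γ φ) (hψ : InvC Γ ψ)
    (hφ2 : QU.CD 2 φ) (hψ2 : QU.CD 2 ψ) :
    ∫ z in F, QU.lap φ z * conj (ψ z) = ∫ z in F, φ z * conj (QU.lap ψ z) := by
  obtain ⟨fam, hfam⟩ := QU.A_KFM
  have hη : ∀ n : ℕ, (0 : ℝ) < 1 / ((n : ℝ) + 1) := fun n => by positivity
  have t1 := VGR_lim fam hfam Γ F hΓ hF (QU.lap φ) (fun z => conj (ψ z)) (VGR_lapc φ hφ2)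
    (Complex.continuous_conj.comp hψ.1)
  have t2 := VGR_lim fam hfam Γ F hΓ hF (QU.lap ψ) (fun z => conj (φ z)) (VGR_lapc ψ hψ2)
    (Complex.continuous_conj.comp hφ.1)
  have t3 := (Complex.continuous_conj.tendsto _).comp t2
  have e : ∀ n : ℕ, (∫ z in F, QU.conv (fam (1 / ((n : ℝ) + 1))) (QU.lap φ) z * conj (ψ z)) =
      conj (∫ z in F, QU.conv (fam (1 / ((n : ℝ) + 1))) (QU.lap ψ) z * conj (φ z)) := by
    intro n
    set κ := fam (1 / ((n : ℝ) + 1)) with hκdef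
    have hκ : QU.RK κ := hfam.rk _ (hη n)
    have hLκ : QU.RK (QU.LL κ) := QU.A_LAK.2.2.2.1 κ hκ
    have c1 : QU.conv κ (QU.lap φ) = QU.conv (QU.LL κ) φ := funext fun z => QU.A_COM ℂ κ φ hκ hφ2 z
    have c2 : QU.conv κ (QU.lap ψ) = QU.conv (QU.LL κ) ψ := funext fun z => QU.A_COM ℂ κ ψ hκ hψ2 z
    rw [c1, c2, ← integral_conj]
    have s := VGR_sym Γ F (QU.LL κ) ψ φ hΓ hF hLκ hψ hφ
    calc (∫ z in F, QU.conv (QU.LL κ) φ z * conj (ψ z))
        = ∫ z in F, conj (ψ z) * QU.conv (QU.LL κ) φ z := by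
          congr 1; funext z; exact mul_comm _ _
      _ = ∫ z in F, conj (QU.conv (QU.LL κ) ψ z) * φ z := s.symm
      _ = ∫ z in F, conj (QU.conv (QU.LL κ) ψ z * conj (φ z)) := by
          congr 1; funext z; rw [map_mul, Complex.conj_conj]
  have t4 := t3.congr fun n => (e n).symm
  have h := tendsto_nhds_unique t1 t4
  rw [h, ← integral_conj]
  congr 1
  funext z
  rw [map_mul, Complex.conj_conj, mul_comm]

/-- the plane -/
theorem VGR_plane (φ ψ : ℍ → ℂ) (hφc : Continuous φ) (hψc : Continuous ψ)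
    (hφs : HasCompactSupport φ) (hψs : HasCompactSupport ψ) (hφ2 : QU.CD 2 φ) (hψ2 : QU.CD 2 ψ) :
    ∫ z : ℍ, QU.lap φ z * conj (ψ z) = ∫ z : ℍ, φ z * conj (QU.lap ψ z) := by
  have lφ := VGR_lapc φ hφ2
  have lψ := VGR_lapc ψ hψ2
  have hG : ∀ L : ℂ →L[ℝ] ℝ, ∫ z : ℍ, L (ψ z) • QU.lap φ z = ∫ z : ℍ, L (QU.lap ψ z) • φ z := by
    intro L
    have h0 := QU.A_GRN ℂ (fun z => L (ψ z)) φ (L.contDiff.comp_contDiffOn hψ2) hφ2
      (hψs.comp_left (map_zero L))
    rw [h0]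
    refine integral_congr_ae (Eventually.of_forall (fun z => ?_))
    change QU.lap (fun z => L (ψ z)) z • φ z = L (QU.lap ψ z) • φ z
    rw [FL4_Llap L ψ hψ2]
  have i1 : ∀ L : ℂ →L[ℝ] ℝ, Integrable fun z : ℍ => L (ψ z) • QU.lap φ z := fun L =>
    Continuous.integrable_of_hasCompactSupport ((L.continuous.comp hψc).smul lφ)
      ((hψs.comp_left (map_zero L)).smul_right)
  have i2 : ∀ L : ℂ →L[ℝ] ℝ, Integrable fun z : ℍ => L (QU.lap ψ z) • φ z := fun L =>
    Continuous.integrable_of_hasCompactSupport ((L.continuous.comp lψ).smul hφc)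
      (hφs.smul_left : HasCompactSupport ((fun z => L (QU.lap ψ z)) • φ))
  have e1 : ∫ z : ℍ, QU.lap φ z * conj (ψ z) = (∫ z : ℍ, Complex.reCLM (ψ z) • QU.lap φ z) -
      Complex.I * ∫ z : ℍ, Complex.imCLM (ψ z) • QU.lap φ z := by
    rw [← integral_const_mul, ← integral_sub (i1 _) ((i1 _).const_mul _)]
    refine integral_congr_ae (Eventually.of_forall (fun z => ?_))
    change QU.lap φ z * conj (ψ z) = Complex.reCLM (ψ z) • QU.lap φ z -
      Complex.I * (Complex.imCLM (ψ z) • QU.lap φ z)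
    rw [Complex.real_smul, Complex.real_smul, Complex.reCLM_apply, Complex.imCLM_apply]
    have h5 : conj (ψ z) = ((ψ z).re : ℂ) - (ψ z).im * Complex.I := by
      apply Complex.ext <;> simp
    rw [h5]
    ring
  have e2 : ∫ z : ℍ, φ z * conj (QU.lap ψ z) = (∫ z : ℍ, Complex.reCLM (QU.lap ψ z) • φ z) -
      Complex.I * ∫ z : ℍ, Complex.imCLM (QU.lap ψ z) • φ z := by
    rw [← integral_const_mul, ← integral_sub (i2 _) ((i2 _).const_mul _)]
    refine integral_congr_ae (Eventually.of_forall (fun z => ?_))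
    change φ z * conj (QU.lap ψ z) = Complex.reCLM (QU.lap ψ z) • φ z -
      Complex.I * (Complex.imCLM (QU.lap ψ z) • φ z)
    rw [Complex.real_smul, Complex.real_smul, Complex.reCLM_apply, Complex.imCLM_apply]
    have h5 : conj (QU.lap ψ z) = ((QU.lap ψ z).re : ℂ) - (QU.lap ψ z).im * Complex.I := by
      apply Complex.ext <;> simp
    rw [h5]
    ring
  rw [e1, e2, hG, hG]

theorem VGR_proof : VGR_stmt := by
  intro Γ F φ ψ hD hφ hψ hφ2 hψ2
  rcases hD with ⟨hΓ, hF⟩ | ⟨-, hF⟩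
  · exact VGR_closed Γ F φ ψ hΓ hF ⟨hφ.cont, hφ.inv⟩ ⟨hψ.cont, hψ.inv⟩ hφ2 hψ2
  · subst hF
    have hs : ∀ u : ℍ → ℂ, FH Γ univ u → HasCompactSupport u := by
      intro u hu
      obtain ⟨b, hb⟩ := hu.supp
      refine HasCompactSupport.intro (isCompact_closedBall I b) fun z hz => ?_
      by_contra hne
      exact hz (Metric.mem_closedBall.2 (hb z (mem_univ z) hne))
    rw [setIntegral_univ, setIntegral_univ]
    exact VGR_plane φ ψ hφ.cont hψ.cont (hs φ hφ) (hs ψ hψ) hφ2 hψ2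

end

end Pool.Agent.VQ
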