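import Pool.Agent.helper80.VQ.SpecFL

/-!
# Project VQ, row FFL (the flow is a flow in the sense of SpecE)
-/

set_option autoImplicit false

open scoped MatrixGroups ContDiff Topology UpperHalfPlane ComplexConjugate ENNReal
open UpperHalfPlane MeasureTheory Filter Set

namespace Pool.Agent.VQ

open Pool.Agent.RS
open Pool.Agent.VQE (nm)

theorem FFL_0 (U : ℍ → ℝ) (E : ℝ) (g : SL(2, ℝ)) (i : Fin 2) :
    (g.1 * XX U E g) i 0 = g.1 i 0 * (rho U E g / 2) + g.1 i 1 * (-(kap U E g) / 2) := by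
  rw [Matrix.mul_apply, Fin.sum_univ_two]
  simp only [XX, A0, K0, Matrix.add_apply, Matrix.smul_apply, smul_eq_mul, Matrix.of_apply,
    Matrix.cons_val_zero, Matrix.cons_val_one, Matrix.cons_val', Matrix.cons_val_fin_one]
  ring

theorem FFL_1 (U : ℍ → ℝ) (E : ℝ) (g : SL(2, ℝ)) (i : Fin 2) :
    (g.1 * XX U E g) i 1 = -(g.1 i 0 * (-(kap U E g) / 2)) - g.1 i 1 * (rho U E g / 2) := by
  rw [Matrix.mul_apply, Fin.sum_univ_two]
  simp only [XX, A0, K0, Matrix.add_apply, Matrix.smul_apply, smul_eq_mul, Matrix.of_apply,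
    Matrix.cons_val_zero, Matrix.cons_val_one, Matrix.cons_val', Matrix.cons_val_fin_one]
  ring

theorem FFL_flw (Γ : Subgroup SL(2, ℝ)) (B : ℕ → ℝ) (D : Dyn) (hD : OKG Γ (1 / 8) B D)
    (hFLA : FLA_stmt) (E : ℝ) (hE : |E| ≤ 1 / 8) :
    VQE.Flw (rho D.U E) (fun g => -(kap D.U E g) / 2) (D.fl E) := by
  obtain ⟨hadd, -, -, -⟩ := hFLA Γ (1 / 8) B D hD E hE
  refine ⟨fun g => hD.fl0 E g, fun s t g => hadd s t g, ?_, ?_, ?_⟩
  · exact hD.cfl.comp_continuous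
      (f := fun x : ℝ × SL(2, ℝ) => ((E, x.1, x.2) : ℝ × ℝ × SL(2, ℝ)))
      (by fun_prop) (fun x => hE)
  · intro i t g
    have h := hD.dfl E t g hE i 0
    rw [FFL_0] at h
    exact h
  · intro i t g
    have h := hD.dfl E t g hE i 1
    rw [FFL_1] at h
    exact h

theorem FFL_proof (hFLA : FLA_stmt) (hMPG : MPG_stmt) (hPGV : PGV_stmt) : VQE.FFL_stmt := by
  intro Γ _
  refine ⟨1 / 10, by norm_num, ?_⟩
  intro B D hD0
  have hD : OKG Γ (1 / 8) (Bx B) D := hPGV.2.1 Γ (1 / 10) B D hD0 le_rfl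
  have h0 : |(0 : ℝ)| ≤ 1 / 8 := by norm_num
  refine ⟨⟨FFL_flw Γ (Bx B) D hD hFLA 0 h0, ?_, ?_⟩, ?_⟩
  · exact (hFLA Γ (1 / 8) (Bx B) D hD 0 h0).2.1
  · exact fun t => hMPG Γ (1 / 8) (Bx B) D hD 0 t h0
  · intro E hE
    exact FFL_flw Γ (Bx B) D hD hFLA E (hE.trans (by norm_num))

end Pool.Agent.VQ
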